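import Pool.Agent.N375.AF

set_option autoImplicit false

/-!
MP_acab80_co: the maximal number of complete extensions of an argumentation framework with `n`
arguments is `1` for `n ≤ 1`, `3 ^ (n / 2)` for even `n ≥ 2` and `4 * 3 ^ ((n - 3) / 2)` for odd
`n ≥ 3`.
-/

namespace Pool.Agent.Results.MP_acab80_co.MaxComplete

open Pool.Agent.N375.AF

/-- For every `n`, the largest number of complete extensions of an argumentation framework with
exactly `n` arguments is the conjectured value. -/
theorem result : ∀ n : ℕ, IsGreatest (comValues n)
    (if n ≤ 1 then 1 else if Even n then 3 ^ (n / 2) else 4 * 3 ^ ((n - 3) / 2)) :=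
  isGreatest_sigma

end Pool.Agent.Results.MP_acab80_co.MaxComplete
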